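import Pool.Agent.N40.PQ.Gen

/-!
# Project PQ: primes congruent to 1 modulo 8, modulo which `g` splits (helper40, after N2/PM/Spl.lean)
-/

set_option autoImplicit false
set_option linter.all false

open Polynomial NumberField
open scoped IntermediateField

namespace Pool.Agent.N40.PQ

open Pool.Agent.N922.PQ

theorem splitMod_of_splits (q : ℕ) (hq : q.Prime) (g : ℤ[X]) (hg : g.Monic)
    (hs : (g.map (Int.castRingHom (ZMod q))).Splits) : SplitMod (q : ℤ) g := by
  have : Fact q.Prime := ⟨hq⟩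
  have h1 := hs.eq_prod_roots_of_monic (hg.map _)
  have hsurj : Function.Surjective (Int.castRingHom (ZMod q)) := ZMod.intCast_surjective
  refine ⟨((g.map (Int.castRingHom (ZMod q))).roots).map (Function.surjInv hsurj), ?_⟩
  have h2 : (((((g.map (Int.castRingHom (ZMod q))).roots).map
      (Function.surjInv hsurj)).map fun c => X - C c).prod).map
        (Int.castRingHom (ZMod q)) = g.map (Int.castRingHom (ZMod q)) := by
    conv_rhs => rw [h1]
    rw [Polynomial.map_multiset_prod, Multiset.map_map, Multiset.map_map]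
    congr 1
    refine Multiset.map_congr rfl fun x _ => ?_
    simp only [Function.comp_apply, Polynomial.map_sub, map_X, map_C]
    rw [Function.surjInv_eq hsurj x]
  have h3 : C (q : ℤ) ∣ g - ((((g.map (Int.castRingHom (ZMod q))).roots).map
      (Function.surjInv hsurj)).map fun c => X - C c).prod := by
    rw [C_dvd_iff_dvd_coeff]
    intro i
    rw [← ZMod.intCast_zmod_eq_zero_iff_dvd]
    change (Int.castRingHom (ZMod q)) _ = 0
    rw [coeff_sub, map_sub, ← coeff_map, ← coeff_map, h2, sub_self]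
  obtain ⟨h, hh⟩ := h3
  exact ⟨h, by rw [← hh]; ring⟩

theorem claim1 {M : Type} [Field M] [NumberField M] (γ : M) (g : ℤ[X]) (δ : ℤ)
    (hG : Gen ℚ γ g δ) (hd : g.natDegree = Module.finrank ℚ M) (f : ℤ[X]) (hf : f.Monic)
    (hfs : (f.map (algebraMap ℤ M)).Splits) :
    ∃ Δ : ℤ, Δ ≠ 0 ∧ ∀ q : ℕ, q.Prime → ¬ (q : ℤ) ∣ Δ → ∀ c : ℤ, (q : ℤ) ∣ g.eval c →
      (f.map (Int.castRingHom (ZMod q))).Splits := by
  have hRK : Function.Injective (algebraMap ℤ ℚ) := IsFractionRing.injective ℤ ℚ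
  have hint : IsIntegral ℚ γ := Algebra.IsIntegral.isIntegral γ
  have hmin : g.map (algebraMap ℤ ℚ) = minpoly ℚ γ := by
    refine (eq_of_monic_of_dvd_of_natDegree_le (minpoly.monic hint) (hG.monic.map _) ?_ ?_)
    · apply minpoly.dvd
      rw [aeval_map_algebraMap]
      exact hG.root
    · rw [hG.monic.natDegree_map, hd, (Field.primitive_element_iff_minpoly_natDegree_eq ℚ γ).1 hG.top]
  have hroot : eval₂ (algebraMap ℤ M) γ g = 0 := hG.root
  set ι : AdjoinRoot g →+* M := AdjoinRoot.lift (algebraMap ℤ M) γ hroot with hι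
  have hιinj : Function.Injective ι := by
    rw [injective_iff_map_eq_zero]
    intro a ha
    obtain ⟨p, rfl⟩ := AdjoinRoot.mk_surjective a
    rw [hι, AdjoinRoot.lift_mk] at ha
    rw [AdjoinRoot.mk_eq_zero, ← Polynomial.map_dvd_map _ hRK hG.monic, hmin]
    apply minpoly.dvd
    rw [aeval_map_algebraMap]
    exact ha
  have hden : ∀ m : M, ∃ (Δ : ℤ) (a : AdjoinRoot g), Δ ≠ 0 ∧ ι a = algebraMap ℤ M Δ * m := by
    intro m
    have h1 : m ∈ ℚ⟮γ⟯.toSubalgebra := by
      rw [hG.top]; exact Algebra.mem_top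
    rw [IntermediateField.adjoin_simple_toSubalgebra_of_isAlgebraic hint.isAlgebraic,
      Algebra.adjoin_singleton_eq_range_aeval] at h1
    obtain ⟨p, hp⟩ := h1
    obtain ⟨b, hb, hb2⟩ := IsLocalization.integerNormalization_spec (nonZeroDivisors ℤ) p
    refine ⟨b, AdjoinRoot.mk g (IsLocalization.integerNormalization (nonZeroDivisors ℤ) p),
      nonZeroDivisors.ne_zero hb, ?_⟩
    rw [hι, AdjoinRoot.lift_mk]
    have h2 : eval₂ (algebraMap ℤ M) γ
        (IsLocalization.integerNormalization (nonZeroDivisors ℤ) p) =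
        aeval γ ((IsLocalization.integerNormalization (nonZeroDivisors ℤ) p).map
          (algebraMap ℤ ℚ)) := by
      rw [aeval_map_algebraMap]; rfl
    rw [h2, hb2, ← hp]
    have h3 : b • p = C (algebraMap ℤ ℚ b) * p := by
      rw [← smul_eq_C_mul, algebraMap_smul]
    rw [h3, map_mul, aeval_C, ← IsScalarTower.algebraMap_apply]
    rfl
  choose Δ a hΔ ha using hden
  set rts : Multiset M := (f.map (algebraMap ℤ M)).roots with hrts
  have hsp : f.map (algebraMap ℤ M) = (rts.map fun m => X - C m).prod :=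
    hfs.eq_prod_roots_of_monic (hf.map _)
  have key : C ((rts.map fun m => AdjoinRoot.of g (Δ m)).prod) * f.map (AdjoinRoot.of g) =
      (rts.map fun m => C (AdjoinRoot.of g (Δ m)) * X - C (a m)).prod := by
    apply Polynomial.map_injective ι hιinj
    have hcomp : ι.comp (AdjoinRoot.of g) = algebraMap ℤ M := by
      ext x <;> simp [hι]
    rw [Polynomial.map_mul, Polynomial.map_map, hcomp, hsp, map_C, Polynomial.map_multiset_prod,
      Multiset.map_map, map_multiset_prod, Multiset.map_map, map_multiset_prod C, Multiset.map_map,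
      ← Multiset.prod_map_mul]
    congr 1
    refine Multiset.map_congr rfl fun m _ => ?_
    have hofm : ι (AdjoinRoot.of g (Δ m)) = algebraMap ℤ M (Δ m) := by
      rw [← hcomp]; rfl
    simp only [Function.comp_apply, Polynomial.map_sub, Polynomial.map_mul, map_X, map_C, ha, hofm,
      C_mul]
    ring
  refine ⟨(rts.map Δ).prod, ?_, ?_⟩
  · rw [Ne, Multiset.prod_eq_zero_iff]
    intro h0
    obtain ⟨m, _, hm⟩ := Multiset.mem_map.1 h0
    exact hΔ m hm
  · intro q hq hQΔ c hc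
    have : Fact q.Prime := ⟨hq⟩
    have hqc : eval₂ (Int.castRingHom (ZMod q)) (Int.castRingHom (ZMod q) c) g = 0 := by
      rw [eval₂_at_apply]
      exact (ZMod.intCast_zmod_eq_zero_iff_dvd _ _).2 hc
    set φ : AdjoinRoot g →+* (ZMod q) := AdjoinRoot.lift (Int.castRingHom (ZMod q)) _ hqc with hφ
    have hcomp : φ.comp (AdjoinRoot.of g) = Int.castRingHom (ZMod q) := by
      ext x <;> simp [hφ]
    have h1 := congrArg (Polynomial.map φ) key
    rw [Polynomial.map_mul, Polynomial.map_map, hcomp, map_C, Polynomial.map_multiset_prod,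
      Multiset.map_map] at h1
    have h2 : ((rts.map ((Polynomial.map φ) ∘ fun m => C (AdjoinRoot.of g (Δ m)) * X - C (a m))).prod).Splits := by
      apply Splits.multisetProd
      intro f hf
      obtain ⟨m, _, rfl⟩ := Multiset.mem_map.1 hf
      apply Splits.of_natDegree_le_one
      simp only [Function.comp_apply, Polynomial.map_sub, Polynomial.map_mul, map_X, map_C]
      refine (natDegree_sub_le _ _).trans ?_
      rw [natDegree_C, max_eq_left (Nat.zero_le _)]
      exact (natDegree_C_mul_le _ _).trans natDegree_X_le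
    rw [← h1] at h2
    refine (splits_mul_iff_right ?_ (Splits.C _)).1 h2
    rw [Ne, C_eq_zero, map_multiset_prod, Multiset.map_map]
    have h3 : (φ ∘ fun m => AdjoinRoot.of g (Δ m)) = (Int.castRingHom (ZMod q)) ∘ Δ := by
      funext m
      rw [← hcomp]; rfl
    rw [h3, ← Multiset.map_map, ← map_multiset_prod]
    intro h0
    exact hQΔ ((ZMod.intCast_zmod_eq_zero_iff_dvd _ _).1 h0)

/-- infinitely many primes divide some value -/
theorem claim2 (g : ℤ[X]) (hg : g.Monic) (hd : g.natDegree ≠ 0)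
    (P₀ : ℤ) (hPi : P₀ ≠ 0) : ∃ (q : ℕ) (c : ℤ), q.Prime ∧ ¬ (q : ℤ) ∣ P₀ ∧ (q : ℤ) ∣ g.eval c := by
  classical
  have hg0 : g ≠ 0 := hg.ne_zero
  obtain ⟨c₀, hc₀⟩ : ∃ c, g.eval c ≠ 0 := by
    by_contra! h
    exact hg0 (Polynomial.funext fun c => by rw [h c, eval_zero])
  set G : ℤ[X] := g.comp (C c₀ + C (g.eval c₀ * P₀) * X) with hGdef
  have hlin : (C c₀ + C (g.eval c₀ * P₀) * X : ℤ[X]).natDegree = 1 := by
    rw [add_comm]
    exact natDegree_linear (mul_ne_zero hc₀ hPi)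
  have hGd : G.natDegree ≠ 0 := by
    rw [hGdef, natDegree_comp, hlin, mul_one]
    exact hd
  have hne : (∏ e ∈ ({0, 1, -1} : Finset ℤ), (G - C (e * g.eval c₀))) ≠ 0 := by
    rw [Finset.prod_ne_zero_iff]
    intro e _ h0
    rw [sub_eq_zero] at h0
    rw [h0, natDegree_C] at hGd
    exact hGd rfl
  obtain ⟨t, ht⟩ : ∃ t, (∏ e ∈ ({0, 1, -1} : Finset ℤ), (G - C (e * g.eval c₀))).eval t ≠ 0 := by
    by_contra! h
    exact hne (Polynomial.funext fun c => by rw [h c, eval_zero])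
  rw [eval_prod, Finset.prod_ne_zero_iff] at ht
  have hGt : G.eval t = g.eval (c₀ + g.eval c₀ * P₀ * t) := by
    rw [hGdef, eval_comp]; simp
  obtain ⟨v, hv⟩ := sub_dvd_eval_sub (c₀ + g.eval c₀ * P₀ * t) c₀ g
  have hfac : G.eval t = g.eval c₀ * (1 + P₀ * (t * v)) := by
    rw [hGt]
    linear_combination hv
  set w : ℤ := 1 + P₀ * (t * v) with hw
  have hw2 : ∀ e ∈ ({0, 1, -1} : Finset ℤ), w ≠ e := by
    intro e he hwe
    apply ht e he
    rw [eval_sub, eval_C, hfac, hwe]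
    ring
  have hwu : w.natAbs ≠ 1 := by
    intro h
    rcases Int.natAbs_eq w with h1 | h1
    · rw [h] at h1
      exact hw2 1 (by simp) h1
    · rw [h] at h1
      exact hw2 (-1) (by simp) h1
  obtain ⟨q, hq, hqw⟩ := Nat.exists_prime_and_dvd hwu
  have hqw' : (q : ℤ) ∣ w := Int.natCast_dvd.2 hqw
  refine ⟨q, c₀ + g.eval c₀ * P₀ * t, hq, ?_, ?_⟩
  · intro hQPi
    have h1 : (q : ℤ) ∣ 1 := by
      have h2 : (1 : ℤ) = w - P₀ * (t * v) := by rw [hw]; ring
      rw [h2]
      exact dvd_sub hqw' (hQPi.mul_right _)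
    exact hq.one_lt.ne' (by exact_mod_cast Int.eq_one_of_dvd_one (by positivity) h1)
  · rw [← hGt, hfac]
    exact hqw'.mul_left _

/-- a zero of `X ^ 4 + 1` modulo an odd prime -/
theorem mod8 {q : ℕ} (hq : q.Prime) (h2 : q ≠ 2) (h : ((X ^ 4 + 1 : ℤ[X]).map (Int.castRingHom (ZMod q))).Splits) :
    q % 8 = 1 := by
  have : Fact q.Prime := ⟨hq⟩
  have h4 : ((X ^ 4 + 1 : ℤ[X]).map (Int.castRingHom (ZMod q))) = X ^ 4 + 1 := by simp
  rw [h4] at h
  have hdeg : (X ^ 4 + 1 : (ZMod q)[X]).degree ≠ 0 := by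
    have : (X ^ 4 + 1 : (ZMod q)[X]).natDegree = 4 := by compute_degree!
    intro h0
    have := natDegree_eq_zero_iff_degree_le_zero.2 h0.le
    omega
  obtain ⟨z, hz⟩ := h.exists_eval_eq_zero hdeg
  simp only [eval_add, eval_pow, eval_X, eval_one] at hz
  have hne : (-1 : ZMod q) ≠ 1 := by
    have : Fact (2 < q) := ⟨lt_of_le_of_ne hq.two_le (Ne.symm h2)⟩
    exact ZMod.neg_one_ne_one
  have hz4 : z ^ 4 = -1 := by linear_combination hz
  have hord : orderOf z = 2 ^ (2 + 1) := by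
    apply orderOf_eq_prime_pow
    · rw [show 2 ^ 2 = 4 by norm_num, hz4]
      exact hne
    · rw [show 2 ^ (2 + 1) = 4 * 2 by norm_num, pow_mul, hz4]
      norm_num
  have hz0 : z ≠ 0 := by
    intro h0
    rw [h0] at hz4
    norm_num at hz4
  have hdvd := ZMod.orderOf_dvd_card_sub_one hz0
  rw [hord] at hdvd
  have := hq.one_lt
  omega

theorem exists_nonres {q : ℕ} (hq : q.Prime) (h2 : q ≠ 2) : ∃ s : ℤ, ∀ z : ℤ, ¬ (q : ℤ) ∣ z ^ 2 + s := by
  have : Fact q.Prime := ⟨hq⟩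
  have hc : ringChar (ZMod q) ≠ 2 := by
    rw [ZMod.ringChar_zmod_n]
    exact h2
  obtain ⟨a, ha⟩ := FiniteField.exists_nonsquare hc
  obtain ⟨s, hs⟩ := ZMod.intCast_surjective (-a)
  refine ⟨s, fun z hz => ha ?_⟩
  rw [← ZMod.intCast_zmod_eq_zero_iff_dvd] at hz
  push_cast at hz
  rw [hs] at hz
  exact ⟨(z : ZMod q), by linear_combination -hz⟩

theorem spl : S_SPL := by
  classical
  intro M _ _ _ γ g δ hG hd T r
  -- the splitting field
  set f : ℤ[X] := g * (X ^ 4 + 1) with hf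
  have h41 : (X ^ 4 + 1 : ℤ[X]).Monic := by monicity!
  have hfm : f.Monic := hG.monic.mul h41
  have hNN : NumberField (f.map (algebraMap ℤ ℚ)).SplittingField :=
    { to_charZero := charZero_of_injective_algebraMap
        (algebraMap ℚ (f.map (algebraMap ℤ ℚ)).SplittingField).injective
      to_finiteDimensional := inferInstance }
  have hfs : (f.map (algebraMap ℤ (f.map (algebraMap ℤ ℚ)).SplittingField)).Splits := by
    have h1 := SplittingField.splits (f.map (algebraMap ℤ ℚ))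
    rw [Polynomial.map_map] at h1
    convert h1 using 2
    exact RingHom.ext_int _ _
  obtain ⟨η, G, δ', hGG, hdG⟩ := gen (f.map (algebraMap ℤ ℚ)).SplittingField
  obtain ⟨Δ, hΔ0, hΔ⟩ := claim1 η G δ' hGG hdG f hfm hfs
  have hg0 : G.natDegree ≠ 0 := by
    rw [hdG]; exact Module.finrank_pos.ne'
  have hgood : ∀ q : ℕ, q.Prime → ¬ (q : ℤ) ∣ 2 * Δ → ∀ c : ℤ, (q : ℤ) ∣ G.eval c →
      SplitMod (q : ℤ) g ∧ q % 8 = 1 := by
    intro q hq hqΔ c hc
    have : Fact q.Prime := ⟨hq⟩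
    have h1 := hΔ q hq (fun h => hqΔ (h.mul_left _)) c hc
    rw [hf, Polynomial.map_mul] at h1
    have hne1 : g.map (Int.castRingHom (ZMod q)) ≠ 0 := (hG.monic.map _).ne_zero
    have hne2 : (X ^ 4 + 1 : ℤ[X]).map (Int.castRingHom (ZMod q)) ≠ 0 := (h41.map _).ne_zero
    rw [splits_mul_iff hne1 hne2] at h1
    refine ⟨splitMod_of_splits q hq g hG.monic h1.1, mod8 hq ?_ h1.2⟩
    rintro rfl
    exact hqΔ (dvd_mul_right _ _)
  have hinf : {Q : ℤ | IsPr Q ∧ Q % 8 = 1 ∧ SplitMod Q g}.Infinite := by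
    intro hfin
    set P₀ : ℤ := 2 * Δ * ∏ Q ∈ hfin.toFinset, Q with hPi
    have hPi0 : P₀ ≠ 0 := by
      refine mul_ne_zero (mul_ne_zero two_ne_zero hΔ0) (Finset.prod_ne_zero_iff.2 fun Q hQ => ?_)
      exact (hfin.mem_toFinset.1 hQ).1.1.ne'
    obtain ⟨q, c, h1, h3, h4⟩ := claim2 G hGG.monic hg0 P₀ hPi0
    obtain ⟨h5, h6⟩ := hgood q h1 (fun h => h3 (h.mul_right _)) c h4
    apply h3
    exact (Finset.dvd_prod_of_mem _ (hfin.mem_toFinset.2
      ⟨⟨by exact_mod_cast h1.pos, Nat.prime_iff_prime_int.1 h1⟩, by omega, h5⟩)).mul_left _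
  obtain ⟨S, hS1, hS2⟩ := (hinf.sdiff T.finite_toSet).exists_subset_card_eq r
  have hnr : ∀ Q : ℤ, IsPr Q → Q % 8 = 1 → ∃ s : ℤ, ∀ z : ℤ, ¬ Q ∣ z ^ 2 + s := by
    intro Q hQ hQ8
    obtain ⟨q, rfl⟩ := Int.eq_ofNat_of_zero_le hQ.1.le
    exact exists_nonres (Nat.prime_iff_prime_int.2 hQ.2) (by rintro rfl; norm_num at hQ8)
  refine ⟨S, fun Q => if h : IsPr Q ∧ Q % 8 = 1 then (hnr Q h.1 h.2).choose else 0, ?_, hS2, ?_, ?_⟩
  · intro Q hQ
    have h := (hS1 hQ).1
    refine ⟨h.1, h.2.1, ?_⟩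
    beta_reduce
    rw [dif_pos ⟨h.1, h.2.1⟩]
    exact (hnr Q h.1 h.2.1).choose_spec
  · rw [Finset.disjoint_left]
    intro Q hQ hQT
    exact (hS1 hQ).2 hQT
  · intro Q hQ
    exact (hS1 hQ).1.2.2

end Pool.Agent.N40.PQ
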